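import Pool.Agent.H.MP_bac04d_nt.Construct
import Pool.Agent.H.MP_bac04d_nt.DegreeUnique

open Filter

namespace Pool.Agent.Results.MP_bac04d_nt.AllDegreesAboveTwo

/-- The data of a gamma factor as in (P3): finitely many gamma functions in the numerator and
finitely many in the denominator, with positive real `lam`, `lam'` and arbitrary complex
`mu`, `mu'`. -/
structure GammaFactor where
  /-- number of gamma functions in the numerator -/
  r : ℕ
  /-- number of gamma functions in the denominator -/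
  r' : ℕ
  /-- the numbers `λ_j` -/
  lam : Fin r → ℝ
  /-- the numbers `μ_j` -/
  mu : Fin r → ℂ
  /-- the numbers `λ'_j` -/
  lam' : Fin r' → ℝ
  /-- the numbers `μ'_j` -/
  mu' : Fin r' → ℂ
  lam_pos : ∀ j, 0 < lam j
  lam'_pos : ∀ j, 0 < lam' j

/-- The function `G(s) = ∏ Γ(λ_j s + μ_j) ∏ Γ(λ'_j s + μ'_j)⁻¹`. -/
noncomputable def GammaFactor.G (γ : GammaFactor) (s : ℂ) : ℂ :=
  (∏ j, Complex.Gamma (γ.lam j * s + γ.mu j)) *
    ∏ j, (Complex.Gamma (γ.lam' j * s + γ.mu' j))⁻¹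

/-- The degree `2 ∑ λ_j - 2 ∑ λ'_j`. -/
noncomputable def GammaFactor.degree (γ : GammaFactor) : ℝ :=
  2 * ∑ j, γ.lam j - 2 * ∑ j, γ.lam' j

/-- (P1): `F` is given in some right half-plane by an absolutely convergent Dirichlet series. -/
def P1 (F : ℂ → ℂ) : Prop :=
  ∃ (a : ℕ → ℂ) (σ₀ : ℝ), ∀ s : ℂ, σ₀ < s.re → LSeriesSummable a s ∧ F s = LSeries a s

/-- (P2): for some nonzero polynomial `P`, `P(s)F(s)` extends to an entire function `H` which has
polynomial growth on every vertical strip. Equality of meromorphic functions is equality off a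
closed discrete set. -/
def P2 (F : ℂ → ℂ) : Prop :=
  ∃ P : Polynomial ℂ, P ≠ 0 ∧ ∃ H : ℂ → ℂ, Differentiable ℂ H ∧
    H =ᶠ[codiscrete ℂ] (fun s => P.eval s * F s) ∧
    ∀ σ₁ σ₂ : ℝ, ∃ M C : ℝ, ∀ s : ℂ, σ₁ ≤ s.re → s.re ≤ σ₂ → ‖H s‖ ≤ C * (1 + |s.im|) ^ M

/-- (P3) with the gamma factor `γ`: for some real `Q > 0` and complex `ω` with `|ω| = 1`, the
function `Φ(s) = Q^s G(s) F(s)` satisfies `Φ(s) = ω * conj (Φ(1 - conj s))`, as an identity of
meromorphic functions (equality off a closed discrete set). -/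
def P3 (F : ℂ → ℂ) (γ : GammaFactor) : Prop :=
  ∃ Q : ℝ, 0 < Q ∧ ∃ ω : ℂ, ‖ω‖ = 1 ∧
    (fun s : ℂ => (Q : ℂ) ^ s * γ.G s * F s) =ᶠ[codiscrete ℂ]
      (fun s : ℂ => ω * (starRingEnd ℂ) ((Q : ℂ) ^ (1 - (starRingEnd ℂ) s) *
        γ.G (1 - (starRingEnd ℂ) s) * F (1 - (starRingEnd ℂ) s)))

/-- The class `𝒜^#`: the non-zero meromorphic functions on `ℂ` with (P1), (P2) and (P3). -/
def ASharp : Set (ℂ → ℂ) :=
  {F | MeromorphicOn F Set.univ ∧ ¬ (F =ᶠ[codiscrete ℂ] 0) ∧ P1 F ∧ P2 F ∧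
    ∃ γ : GammaFactor, P3 F γ}

/-- The set `𝒜^#_d`: the `F` in `𝒜^#` of degree `d`, meaning that every gamma factor with which
`F` satisfies (P3) has degree `d`. -/
def ASharpDeg (d : ℝ) : Set (ℂ → ℂ) :=
  {F | F ∈ ASharp ∧ ∀ γ : GammaFactor, P3 F γ → γ.degree = d}

open Pool.Agent.H.MP_bac04d_nt

lemma G_eq (γ : GammaFactor) (s : ℂ) : γ.G s = (E γ.lam γ.mu s)⁻¹ * E γ.lam' γ.mu' s := by
  unfold GammaFactor.G E invGamma
  simp only [Finset.prod_inv_distrib, inv_inv]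

/-- The degree of a nonzero entire function does not depend on the gamma factor. -/
theorem degree_unique {F : ℂ → ℂ} (hF : Differentiable ℂ F) (hF0 : ∃ s, F s ≠ 0)
    {γ γ' : GammaFactor} (h : P3 F γ) (h' : P3 F γ') : γ.degree = γ'.degree := by
  obtain ⟨Q, hQ, ω, hω, h⟩ := h
  obtain ⟨Q', hQ', ω', hω', h'⟩ := h'
  simp only [G_eq] at h h'
  have h0 : ω ≠ 0 := by rintro rfl; simp at hω
  have h0' : ω' ≠ 0 := by rintro rfl; simp at hω'
  have key := degree_unique_core γ.lam_pos γ.mu γ.lam'_pos γ.mu' γ'.lam_pos γ'.mu γ'.lam'_pos γ'.mu'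
    hF hF0 hQ hQ' h0 h0' h h'
  unfold GammaFactor.degree
  linarith

lemma gamma_codiscrete {ν : ℝ} (hν : 0 < ν) :
    ∀ᶠ s : ℂ in codiscrete ℂ, Complex.Gamma (ν * s) ≠ 0 ∧ Complex.Gamma (ν * (1 - s)) ≠ 0 := by
  have h1 : Differentiable ℂ fun s : ℂ => (Complex.Gamma (ν * s))⁻¹ :=
    Complex.differentiable_one_div_Gamma.comp (by fun_prop : Differentiable ℂ fun s : ℂ => (ν : ℂ) * s)
  have h2 : Differentiable ℂ fun s : ℂ => (Complex.Gamma (ν * (1 - s)))⁻¹ :=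
    Complex.differentiable_one_div_Gamma.comp
      (by fun_prop : Differentiable ℂ fun s : ℂ => (ν : ℂ) * (1 - s))
  have c1 := ne_codiscrete h1 ⟨1, inv_ne_zero (Complex.Gamma_ne_zero_of_re_pos (by simpa using hν))⟩
  have c2 := ne_codiscrete h2 ⟨0, inv_ne_zero (Complex.Gamma_ne_zero_of_re_pos (by simpa using hν))⟩
  filter_upwards [c1, c2] with s h3 h4
  exact ⟨fun h => h3 (by rw [h, inv_zero]), fun h => h4 (by rw [h, inv_zero])⟩

/-- For every real `d > 2` the set `𝒜^#_d` contains a function `F` which is entire, has real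
Dirichlet coefficients with `a_1 = 1`, an absolutely convergent Dirichlet series for `Re s > 1`,
and a functional equation with the single gamma factor `Γ(d s / 2)`. -/
theorem result (d : ℝ) (hd : 2 < d) :
    ∃ F ∈ ASharpDeg d, Differentiable ℂ F ∧
      (∃ a : ℕ → ℝ, a 1 = 1 ∧ ∀ s : ℂ, 1 < s.re →
        LSeriesSummable (fun n => (a n : ℂ)) s ∧ F s = LSeries (fun n => (a n : ℂ)) s) ∧
      ∃ Q : ℝ, 0 < Q ∧ ∀ s : ℂ, (∀ m : ℕ, (d / 2 : ℂ) * s ≠ -m) →
        (∀ m : ℕ, (d / 2 : ℂ) * (1 - s) ≠ -m) →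
        (Q : ℂ) ^ s * Complex.Gamma (d / 2 * s) * F s =
          (Q : ℂ) ^ (1 - s) * Complex.Gamma (d / 2 * (1 - s)) * F (1 - s) := by
  set ν : ℝ := d / 2 with hνdef
  have hν1 : 1 ≤ ν := by rw [hνdef]; linarith
  have hν : 0 < ν := by linarith
  have hcast : (d / 2 : ℂ) = (ν : ℂ) := by rw [hνdef]; push_cast; ring
  obtain ⟨D⟩ := nonempty_thetaData hν1
  have hdiff := D.differentiable_F hν
  have hLS : ∀ s : ℂ, 1 < s.re → LSeriesSummable (fun n => ((D.e n : ℝ) : ℂ)) s ∧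
      D.F hν s = LSeries (fun n => ((D.e n : ℝ) : ℂ)) s := fun s hs =>
    ⟨D.summable_coeff hs, D.F_eq_LSeries hν hs⟩
  have hne : ∃ s, D.F hν s ≠ 0 := by
    by_contra h1
    push Not at h1
    have h5 : LSeries.abscissaOfAbsConv (fun n => ((D.e n : ℝ) : ℂ)) < ⊤ := by
      refine lt_of_le_of_lt (hLS 2 (by norm_num)).1.abscissaOfAbsConv_le ?_
      exact EReal.coe_lt_top _
    have h6 := LSeries.tendsto_atTop h5
    have h7 : Tendsto (fun x : ℝ => LSeries (fun n => ((D.e n : ℝ) : ℂ)) x) atTop (nhds 0) := by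
      refine (tendsto_const_nhds (x := (0 : ℂ))).congr' ?_
      filter_upwards [eventually_gt_atTop 1] with x hx
      rw [← (hLS x (by simpa using hx)).2, h1]
    have h8 := tendsto_nhds_unique h6 h7
    simp [D.e1] at h8
  have hP3 : P3 (D.F hν) ⟨1, 0, fun _ => ν, fun _ => 0, fun _ => 1, fun _ => 0, fun _ => hν,
      fun _ => one_pos⟩ := by
    refine ⟨ThetaData.Q ν, ThetaData.Q_pos ν, 1, by simp, ?_⟩
    filter_upwards [gamma_codiscrete hν] with s hs
    simpa [GammaFactor.G] using D.functional_equation hν hs.1 hs.2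
  refine ⟨D.F hν, ⟨⟨?_, ?_, ?_, ?_, ?_⟩, ?_⟩, hdiff, ⟨D.e, D.e1, hLS⟩, ?_⟩
  · exact fun z _ => (hdiff.analyticAt z).meromorphicAt
  · intro h0
    have h1 : D.F hν = 0 := eq_of_codiscrete hdiff.continuous continuous_zero h0
    obtain ⟨s, hs⟩ := hne
    exact hs (by rw [h1]; rfl)
  · exact ⟨_, 1, hLS⟩
  · refine ⟨1, one_ne_zero, D.F hν, hdiff, by simp, fun σ₁ σ₂ => ?_⟩
    obtain ⟨n, C, hC, h⟩ := D.F_growth hν (K := max 1 (max (-σ₁) σ₂)) (by positivity)
    refine ⟨n, C, fun s h1 h2 => ?_⟩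
    rw [Real.rpow_natCast]
    apply h
    · have := (le_max_left (-σ₁) σ₂).trans (le_max_right 1 (max (-σ₁) σ₂))
      linarith
    · have := (le_max_right (-σ₁) σ₂).trans (le_max_right 1 (max (-σ₁) σ₂))
      linarith
  · exact ⟨_, hP3⟩
  · intro γ hγ
    rw [degree_unique hdiff hne hγ hP3]
    simp [GammaFactor.degree, hνdef]; ring
  · refine ⟨ThetaData.Q ν, ThetaData.Q_pos ν, fun s h1 h2 => ?_⟩
    rw [hcast] at h1 h2 ⊢
    rw [D.completed_eq hν (Complex.Gamma_ne_zero h1), D.completed_eq hν (Complex.Gamma_ne_zero h2),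
      ← D.Lam_feq]
    congr 1; ring

end Pool.Agent.Results.MP_bac04d_nt.AllDegreesAboveTwo
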